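import Pool.Agent.N964.GW.Stm

set_option autoImplicit false

/-!
# Project GW, part B: the size of the kernel
-/

namespace Pool.Agent.N263.GW

open Complex
open Pool.Agent.N964.GW
open Pool.Agent.N964.GX (Dk)

lemma cosh_ge (x : ℝ) (hx : 0 < x) : x ^ 2 / 2 ≤ Real.cosh x - 1 := by
  have h1 : x / 2 ≤ Real.sinh (x / 2) := Real.self_le_sinh_iff.2 (by positivity)
  have h2 := Real.cosh_two_mul (x / 2)
  rw [show 2 * (x / 2) = x by ring] at h2
  have h3 := Real.cosh_sq (x / 2)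
  nlinarith

lemma norm_lo (z : ℂ) (r : ℝ) (hr : 0 ≤ r) (h : r ^ 2 ≤ z.re ^ 2 + z.im ^ 2) : r ≤ ‖z‖ := by
  rw [← pow_le_pow_iff_left₀ hr (norm_nonneg z) two_ne_zero, Complex.sq_norm, Complex.normSq_apply]
  nlinarith

lemma norm_up (z : ℂ) (r : ℝ) (hr : 0 ≤ r) (h : z.re ^ 2 + z.im ^ 2 ≤ r ^ 2) : ‖z‖ ≤ r := by
  rw [← pow_le_pow_iff_left₀ (norm_nonneg z) hr two_ne_zero, Complex.sq_norm, Complex.normSq_apply]
  nlinarith

lemma c0_eq (l s : ℝ) (hl : 0 < l) (hs : 0 < s) :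
    c0 l s = (1 - Real.exp (-(l * s))) / (Real.cosh (l * s) - 1) := by
  have hc := cosh_ge (l * s) (by positivity)
  have hc0 : 0 < Real.cosh (l * s) - 1 := by
    have : 0 < (l * s) ^ 2 / 2 := by positivity
    linarith
  unfold c0
  rw [eq_div_iff hc0.ne', sub_mul, div_mul_cancel₀ _ hc0.ne', Real.sinh_eq, Real.cosh_eq]
  ring

lemma c0_nonneg (l s : ℝ) (hl : 0 < l) (hs : 0 < s) : 0 ≤ c0 l s := by
  rw [c0_eq l s hl hs]
  have hc := cosh_ge (l * s) (by positivity)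
  have hc0 : 0 < Real.cosh (l * s) - 1 := by
    have : 0 < (l * s) ^ 2 / 2 := by positivity
    linarith
  have h1 : Real.exp (-(l * s)) ≤ 1 := Real.exp_le_one_iff.mpr (by
    have : 0 < l * s := by positivity
    linarith)
  exact div_nonneg (by linarith) hc0.le

/-- the kernel, written with two differences -/
lemma H2_eq (l s κ : ℝ) (w : ℂ) (hl : 0 < l) (hs : 0 < s) (h1 : w - s ≠ 0) (h2 : w + s ≠ 0)
    (h3 : (w + κ) ^ 2 - 25 / 4 ≠ 0) :
    H2 l s κ w = s * (cexp (l * w) - 1) / ((w - s) * (w + s) * ((Real.cosh (l * s) - 1 : ℝ) : ℂ)) +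
      (c0 l s : ℂ) * ((-(κ * (w + κ) * w) - s ^ 2 * (w + κ) + 25 / 4 * w) /
        (((w + κ) ^ 2 - 25 / 4) * ((w - s) * (w + s)))) := by
  have hc := cosh_ge (l * s) (by positivity)
  have hc0 : 0 < Real.cosh (l * s) - 1 := by
    have : 0 < (l * s) ^ 2 / 2 := by positivity
    linarith
  have hcC : ((Real.cosh (l * s) - 1 : ℝ) : ℂ) ≠ 0 := by exact_mod_cast hc0.ne'
  have hds : dslope (fun u : ℂ => cexp (l * u)) 0 (w + s) = (cexp (l * (w + s)) - 1) / (w + s) := by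
    rw [dslope_of_ne _ h2, slope_def_field]
    simp
  have hexp : cexp (l * (w + s)) = cexp (l * w) * cexp (l * s) := by
    rw [← Complex.exp_add]; congr 1; ring
  have hE : (((Real.exp (-(l * s)) : ℝ)) : ℂ) * cexp (l * s) = 1 := by
    push_cast
    rw [← Complex.exp_add]
    simp
  unfold H2 Hn Kp
  rw [hds, hexp, c0_eq l s hl hs]
  set E : ℂ := ((Real.exp (-(l * s)) : ℝ) : ℂ) with hEd
  set c : ℂ := ((Real.cosh (l * s) - 1 : ℝ) : ℂ) with hcd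
  have e1 : (((s * Real.exp (-(l * s)) : ℝ)) : ℂ) = s * E := by rw [Complex.ofReal_mul]
  have e2 : (((1 - Real.exp (-(l * s)) : ℝ)) : ℂ) = 1 - E := by
    rw [Complex.ofReal_sub, Complex.ofReal_one]
  have e3 : (((1 - Real.exp (-(l * s))) / (Real.cosh (l * s) - 1) : ℝ) : ℂ) = (1 - E) / c := by
    rw [Complex.ofReal_div, e2]
  rw [e1, e2, e3]
  have e4 : (s : ℂ) * E * ((cexp (l * w) * cexp (l * s) - 1) / (w + s)) =
      (s * cexp (l * w) - s * E) / (w + s) := by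
    rw [mul_div_assoc']
    congr 1
    linear_combination (s * cexp (l * w)) * hE
  rw [e4]
  obtain ⟨Dn, hDn⟩ : ∃ Dn : ℂ, Dn = (w + κ) ^ 2 - 25 / 4 := ⟨_, rfl⟩
  rw [← hDn] at h3 ⊢
  field_simp
  rw [hDn]
  ring

lemma brk (s κ : ℝ) (w : ℂ) (hs : 0 < s) (hs1 : s ≤ 1) (hκ : 0 ≤ κ) (hκ1 : κ ≤ 1 / 2)
    (hw : |w.re| ≤ 5 / 4) (hw' : |w.re| = 5 / 4 ∨ 2 ≤ |w.im|) :
    (1 + w.im ^ 2) / 16 ≤ ‖(w - s) * (w + s)‖ ∧ 9 / 16 * (1 + w.im ^ 2) ≤ ‖(w + κ) ^ 2 - 25 / 4‖ ∧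
    ‖(-(κ * (w + κ) * w) - s ^ 2 * (w + κ) + 25 / 4 * w : ℂ)‖ ≤ 13 * (1 + w.im ^ 2) := by
  obtain ⟨hw1, hw2⟩ := abs_le.mp hw
  set r := Real.sqrt (1 + w.im ^ 2) with hr
  have hr2 : r ^ 2 = 1 + w.im ^ 2 := Real.sq_sqrt (by positivity)
  have hr0 : 0 ≤ r := Real.sqrt_nonneg _
  have hr1 : 1 ≤ r := Real.one_le_sqrt.mpr (by nlinarith [sq_nonneg w.im])
  have hcase : w.re = 5 / 4 ∨ w.re = -(5 / 4) ∨ 4 ≤ w.im ^ 2 := by
    rcases hw' with h | h
    · rcases abs_choice w.re with h1 | h1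
      · left; linarith
      · right; left; linarith
    · right; right
      have := sq_abs w.im
      nlinarith
  have hA : r / 4 ≤ ‖w - s‖ := by
    apply norm_lo _ _ (by positivity)
    simp only [sub_re, sub_im, ofReal_re, ofReal_im, sub_zero]
    rw [div_pow, hr2]
    rcases hcase with h | h | h
    · rw [h]; nlinarith [sq_nonneg w.im]
    · rw [h]; nlinarith [sq_nonneg w.im]
    · nlinarith [sq_nonneg (w.re - s)]
  have hB : r / 4 ≤ ‖w + s‖ := by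
    apply norm_lo _ _ (by positivity)
    simp only [add_re, add_im, ofReal_re, ofReal_im, add_zero]
    rw [div_pow, hr2]
    rcases hcase with h | h | h
    · rw [h]; nlinarith [sq_nonneg w.im]
    · rw [h]; nlinarith [sq_nonneg w.im]
    · nlinarith [sq_nonneg (w.re + s)]
  have hC : 3 / 4 * r ≤ ‖w + κ - 5 / 2‖ := by
    apply norm_lo _ _ (by positivity)
    have e1 : (w + κ - 5 / 2 : ℂ).re = w.re + κ - 5 / 2 := by simp
    have e2 : (w + κ - 5 / 2 : ℂ).im = w.im := by simp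
    rw [e1, e2, mul_pow, hr2]
    have h3 : 3 / 4 ≤ 5 / 2 - w.re - κ := by linarith
    nlinarith [sq_nonneg w.im]
  have hD : 3 / 4 * r ≤ ‖w + κ + 5 / 2‖ := by
    apply norm_lo _ _ (by positivity)
    have e1 : (w + κ + 5 / 2 : ℂ).re = w.re + κ + 5 / 2 := by simp
    have e2 : (w + κ + 5 / 2 : ℂ).im = w.im := by simp
    rw [e1, e2, mul_pow, hr2]
    have h3 : 3 / 4 ≤ 5 / 2 + w.re + κ := by linarith
    nlinarith [sq_nonneg w.im]
  have hW : ‖w‖ ≤ 3 / 2 * r := by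
    apply norm_up _ _ (by positivity)
    rw [mul_pow, hr2]
    nlinarith [sq_nonneg w.im]
  have hU : ‖w + κ‖ ≤ 7 / 4 * r := by
    apply norm_up _ _ (by positivity)
    simp only [add_re, add_im, ofReal_re, ofReal_im, add_zero]
    rw [mul_pow, hr2]
    have h3 : (w.re + κ) ^ 2 ≤ (7 / 4) ^ 2 := by
      apply sq_le_sq'
      · linarith
      · linarith
    nlinarith [sq_nonneg w.im]
  have hrr : r ≤ r ^ 2 := by nlinarith
  refine ⟨?_, ?_, ?_⟩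
  · rw [norm_mul, ← hr2]
    calc r ^ 2 / 16 = r / 4 * (r / 4) := by ring
      _ ≤ _ := mul_le_mul hA hB (by positivity) (norm_nonneg _)
  · have : (w + κ) ^ 2 - 25 / 4 = (w + κ - 5 / 2) * (w + κ + 5 / 2) := by ring
    rw [this, norm_mul, ← hr2]
    calc 9 / 16 * r ^ 2 = 3 / 4 * r * (3 / 4 * r) := by ring
      _ ≤ _ := mul_le_mul hC hD (by positivity) (norm_nonneg _)
  · rw [← hr2]
    have n1 : ‖(-(κ * (w + κ) * w) : ℂ)‖ ≤ 21 / 16 * r ^ 2 := by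
      rw [norm_neg, norm_mul, norm_mul, Complex.norm_real, Real.norm_of_nonneg hκ]
      calc κ * ‖w + κ‖ * ‖w‖ ≤ 1 / 2 * (7 / 4 * r) * (3 / 2 * r) := by gcongr
        _ = _ := by ring
    have n2 : ‖((s : ℂ) ^ 2 * (w + κ))‖ ≤ 7 / 4 * r ^ 2 := by
      rw [norm_mul, norm_pow, Complex.norm_real, Real.norm_of_nonneg hs.le]
      calc s ^ 2 * ‖w + κ‖ ≤ 1 * (7 / 4 * r) := by
            apply mul_le_mul _ hU (norm_nonneg _) zero_le_one
            nlinarith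
        _ ≤ _ := by linarith
    have n3 : ‖(25 / 4 * w : ℂ)‖ ≤ 75 / 8 * r ^ 2 := by
      rw [norm_mul]
      have : ‖(25 / 4 : ℂ)‖ = 25 / 4 := by
        rw [norm_div]; simp
      rw [this]
      calc 25 / 4 * ‖w‖ ≤ 25 / 4 * (3 / 2 * r) := by gcongr
        _ ≤ _ := by linarith
    calc ‖(-(κ * (w + κ) * w) - s ^ 2 * (w + κ) + 25 / 4 * w : ℂ)‖
        ≤ ‖(-(κ * (w + κ) * w) - s ^ 2 * (w + κ) : ℂ)‖ + ‖(25 / 4 * w : ℂ)‖ := norm_add_le _ _
      _ ≤ ‖(-(κ * (w + κ) * w) : ℂ)‖ + ‖((s : ℂ) ^ 2 * (w + κ))‖ + ‖(25 / 4 * w : ℂ)‖ := by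
          gcongr
          exact norm_sub_le _ _
      _ ≤ 13 * r ^ 2 := by nlinarith [sq_nonneg r]

/-- the general estimate: the exponential term `g` may be changed -/
lemma gen (l s κ : ℝ) (w g : ℂ) (G : ℝ) (hl : 1 ≤ l) (hs : 0 < s) (hs1 : s ≤ 1) (hκ : 0 ≤ κ)
    (hκ1 : κ ≤ 1 / 2) (hw : |w.re| ≤ 5 / 4) (hw' : |w.re| = 5 / 4 ∨ 2 ≤ |w.im|) (hg : ‖g‖ ≤ G) :
    ‖s * g / ((w - s) * (w + s) * ((Real.cosh (l * s) - 1 : ℝ) : ℂ)) +
      (c0 l s : ℂ) * ((-(κ * (w + κ) * w) - s ^ 2 * (w + κ) + 25 / 4 * w) /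
        (((w + κ) ^ 2 - 25 / 4) * ((w - s) * (w + s))))‖ ≤
      370 * (c0 l s + G / (l ^ 2 * s)) / (1 + w.im ^ 2) := by
  obtain ⟨h1, h2, h3⟩ := brk s κ w hs hs1 hκ hκ1 hw hw'
  have hl0 : 0 < l := by linarith
  have hc := cosh_ge (l * s) (by positivity)
  have hc0 : 0 < Real.cosh (l * s) - 1 := by
    have : 0 < (l * s) ^ 2 / 2 := by positivity
    linarith
  have hcz := c0_nonneg l s hl0 hs
  have hY : 0 < 1 + w.im ^ 2 := by positivity
  set Y := 1 + w.im ^ 2 with hYd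
  have hG : 0 ≤ G := (norm_nonneg g).trans hg
  have t1 : ‖s * g / ((w - s) * (w + s) * ((Real.cosh (l * s) - 1 : ℝ) : ℂ))‖ ≤
      32 * (G / (l ^ 2 * s)) / Y := by
    rw [norm_div, norm_mul, norm_mul, Complex.norm_real, Complex.norm_real,
      Real.norm_of_nonneg hs.le, Real.norm_of_nonneg hc0.le]
    calc s * ‖g‖ / (‖(w - s) * (w + s)‖ * (Real.cosh (l * s) - 1))
        ≤ s * G / (Y / 16 * ((l * s) ^ 2 / 2)) := by gcongr
      _ = _ := by field_simp; ring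
  have t2 : ‖(c0 l s : ℂ) * ((-(κ * (w + κ) * w) - s ^ 2 * (w + κ) + 25 / 4 * w) /
        (((w + κ) ^ 2 - 25 / 4) * ((w - s) * (w + s))))‖ ≤ 370 * c0 l s / Y := by
    rw [norm_mul, norm_div, norm_mul ((w + κ) ^ 2 - 25 / 4 : ℂ), Complex.norm_real,
      Real.norm_of_nonneg hcz]
    calc c0 l s * (‖(-(κ * (w + κ) * w) - s ^ 2 * (w + κ) + 25 / 4 * w : ℂ)‖ /
          (‖((w + κ) ^ 2 - 25 / 4 : ℂ)‖ * ‖(w - s) * (w + s)‖))
        ≤ c0 l s * (13 * Y / (9 / 16 * Y * (Y / 16))) := by gcongr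
      _ = (13 * 256 / 9) * c0 l s / Y := by field_simp; norm_num
      _ ≤ 370 * c0 l s / Y := by
          apply div_le_div_of_nonneg_right _ hY.le
          apply mul_le_mul_of_nonneg_right _ hcz
          norm_num
  refine (norm_add_le _ _).trans ((add_le_add t1 t2).trans ?_)
  rw [← add_div]
  apply div_le_div_of_nonneg_right _ hY.le
  have : 0 ≤ G / (l ^ 2 * s) := by positivity
  linarith

lemma nz (s κ : ℝ) (w : ℂ) (hs : 0 < s) (hs1 : s ≤ 1) (hκ : 0 ≤ κ) (hκ1 : κ ≤ 1 / 2)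
    (hw : |w.re| ≤ 5 / 4) (hw' : |w.re| = 5 / 4 ∨ 2 ≤ |w.im|) :
    w - s ≠ 0 ∧ w + s ≠ 0 ∧ (w + κ) ^ 2 - 25 / 4 ≠ 0 := by
  obtain ⟨h1, h2, _⟩ := brk s κ w hs hs1 hκ hκ1 hw hw'
  have hY : 0 < 1 + w.im ^ 2 := by positivity
  have h3 : (w - s) * (w + s) ≠ 0 := by
    intro h
    rw [h, norm_zero] at h1
    linarith
  refine ⟨left_ne_zero_of_mul h3, right_ne_zero_of_mul h3, ?_⟩
  intro h
  rw [h, norm_zero] at h2
  linarith

theorem bd : S_bd := by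
  refine ⟨370, by norm_num, ?_⟩
  intro l s κ w hl hs hs1 hκ hκ1 hw hw'
  obtain ⟨h1, h2, h3⟩ := nz s κ w hs hs1 hκ hκ1 hw hw'
  rw [H2_eq l s κ w (by linarith) hs h1 h2 h3]
  apply gen l s κ w _ _ hl hs hs1 hκ hκ1 hw hw'
  refine (norm_sub_le _ _).trans ?_
  rw [Complex.norm_exp, norm_one]
  have : ((l : ℂ) * w).re = l * w.re := by simp
  rw [this]
  linarith

theorem bdr : S_bdr := by
  refine ⟨740, by norm_num, ?_⟩
  intro l s κ w hl hs hs1 hκ hκ1 hre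
  have hw : |w.re| ≤ 5 / 4 := by rw [hre, abs_of_pos (by norm_num)]
  have hw' : |w.re| = 5 / 4 ∨ 2 ≤ |w.im| := Or.inl (by rw [hre, abs_of_pos (by norm_num)])
  obtain ⟨h1, h2, h3⟩ := nz s κ w hs hs1 hκ hκ1 hw hw'
  have hl0 : 0 < l := by linarith
  have hc := cosh_ge (l * s) (by positivity)
  have hc0 : 0 < Real.cosh (l * s) - 1 := by
    have : 0 < (l * s) ^ 2 / 2 := by positivity
    linarith
  have hcC : ((Real.cosh (l * s) - 1 : ℝ) : ℂ) ≠ 0 := by exact_mod_cast hc0.ne'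
  have hD : s * (cexp (l * w) - 1) / ((w - s) * (w + s) * ((Real.cosh (l * s) - 1 : ℝ) : ℂ)) +
      Dk l s w = s * (1 - cexp (-(l * w))) /
        ((w - s) * (w + s) * ((Real.cosh (l * s) - 1 : ℝ) : ℂ)) := by
    unfold Dk
    have h4 : (s : ℂ) ^ 2 - w ^ 2 = -((w - s) * (w + s)) := by ring
    rw [h4, Complex.cosh]
    field_simp
    ring
  rw [H2_eq l s κ w (by linarith) hs h1 h2 h3, add_right_comm, hD]
  have h5 := gen l s κ w (1 - cexp (-(l * w))) 2 hl hs hs1 hκ hκ1 hw hw' (by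
    refine (norm_sub_le _ _).trans ?_
    rw [Complex.norm_exp, norm_one]
    have h6 : (-((l : ℂ) * w)).re = -(l * w.re) := by simp
    rw [h6, hre]
    have : Real.exp (-(l * (5 / 4))) ≤ 1 := Real.exp_le_one_iff.mpr (by linarith)
    linarith)
  refine h5.trans ?_
  have hY : 0 < 1 + w.im ^ 2 := by positivity
  apply div_le_div_of_nonneg_right _ hY.le
  have hcz := c0_nonneg l s hl0 hs
  have h6 : (2 : ℝ) / (l ^ 2 * s) = 2 * (1 / (l ^ 2 * s)) := by ring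
  rw [h6]
  have : 0 ≤ 1 / (l ^ 2 * s) := by positivity
  linarith

end Pool.Agent.N263.GW
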